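import Pool.Agent.H85.TU.Targets

/-!
# Any two points are in a block (row LNE of `tum_modules`)
-/

set_option autoImplicit false

namespace Pool.Agent.H68.TU

open Set Pool.Agent.H85.TU

private theorem code_inj : ∀ a b : Q, code a = code b → a = b := by
  intro a
  induction a with
  | g =>
    intro b h
    cases b <;> simp only [code] at h <;> first | rfl | omega
  | e i =>
    intro b h
    cases b with
    | g => simp only [code] at h; omega
    | e j =>
      simp only [code] at h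
      have : i = j := by omega
      rw [this]
    | f j => simp only [code] at h; omega
    | new c d v => simp only [code] at h; omega
  | f i =>
    intro b h
    cases b with
    | g => simp only [code] at h; omega
    | e j => simp only [code] at h; omega
    | f j =>
      simp only [code] at h
      have : i = j := by omega
      rw [this]
    | new c d v => simp only [code] at h; omega
  | new a b v iha ihb =>
    intro b' h
    cases b' with
    | g => simp only [code] at h; omega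
    | e j => simp only [code] at h; omega
    | f j => simp only [code] at h; omega
    | new c d w =>
      simp only [code] at h
      have h1 : Nat.pair (Nat.pair (code a) (code b)) v =
          Nat.pair (Nat.pair (code c) (code d)) w := by omega
      rw [Nat.pair_eq_pair, Nat.pair_eq_pair] at h1
      rw [iha c h1.1.1, ihb d h1.1.2, h1.2]

private theorem lt_total (a b : Q) (h : a ≠ b) : lt a b ∨ lt b a := by
  unfold lt
  have h1 : code a ≠ code b := fun h2 => h (code_inj a b h2)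
  rcases Nat.lt_trichotomy (rk a) (rk b) with h2 | h2 | h2
  · exact Or.inl (Or.inl h2)
  · rcases Nat.lt_or_gt_of_ne h1 with h3 | h3
    · exact Or.inl (Or.inr ⟨h2, h3⟩)
    · exact Or.inr (Or.inr ⟨h2.symm, h3⟩)
  · exact Or.inr (Or.inl h2)

private theorem Nr_symm {a b : Q} (h : Nr a b) : Nr b a := h.symm

private theorem gen_g {b : Q} (h1 : 0 < rk b) (h2 : ∀ c d v, b ≠ .new c d v) : Gen .g b := by
  refine ⟨Or.inl h1, ?_⟩
  rintro (⟨c, d, v, h3, _⟩ | ⟨c, d, v, h3, _⟩)
  · cases h3
  · exact h2 c d v h3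

section

variable {ι : Type} {ar : ι → ℕ} {D : ι → Type} {x : Str ar D ℕ} {T : Dat x}

private theorem one (a : Q) (ha : Val T a) : ∃ B : Blk T,
    a = B.1.1 ∨ a = B.1.2 ∨ ∃ v, a = .new B.1.1 B.1.2 v := by
  cases a with
  | g =>
    exact ⟨⟨(.g, .e 0), trivial, trivial, gen_g (by simp [rk]) (by intro c d v h; cases h)⟩,
      Or.inl rfl⟩
  | e i =>
    exact ⟨⟨(.g, .e i), trivial, trivial, gen_g (by simp [rk]) (by intro c d v h; cases h)⟩,
      Or.inr (Or.inl rfl)⟩
  | f i =>
    exact ⟨⟨(.g, .f i), trivial, trivial, gen_g (by simp [rk]) (by intro c d v h; cases h)⟩,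
      Or.inr (Or.inl rfl)⟩
  | new c d v =>
    have h1 : Val T c ∧ Val T d ∧ Gen c d ∧ ¬ Fx x v ∧ v ≠ (pl T c d).1 ∧ v ≠ (pl T c d).2 := ha
    exact ⟨⟨(c, d), h1.1, h1.2.1, h1.2.2.1⟩, Or.inr (Or.inr ⟨v, rfl⟩)⟩

private theorem nr_case (a b c d : Q) (v : ℕ) (ha : Val T a) (h1 : a = .new c d v)
    (h2 : b = c ∨ b = d ∨ ∃ w, b = .new c d w) : ∃ B : Blk T,
    (a = B.1.1 ∨ a = B.1.2 ∨ ∃ v, a = .new B.1.1 B.1.2 v) ∧
      (b = B.1.1 ∨ b = B.1.2 ∨ ∃ v, b = .new B.1.1 B.1.2 v) := by
  subst h1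
  have h3 : Val T c ∧ Val T d ∧ Gen c d ∧ ¬ Fx x v ∧ v ≠ (pl T c d).1 ∧ v ≠ (pl T c d).2 := ha
  exact ⟨⟨(c, d), h3.1, h3.2.1, h3.2.2.1⟩, Or.inr (Or.inr ⟨v, rfl⟩), h2⟩

private theorem two (a b : Q) (ha : Val T a) (hb : Val T b) : ∃ B : Blk T,
    (a = B.1.1 ∨ a = B.1.2 ∨ ∃ v, a = .new B.1.1 B.1.2 v) ∧
      (b = B.1.1 ∨ b = B.1.2 ∨ ∃ v, b = .new B.1.1 B.1.2 v) := by
  by_cases hab : a = b
  · subst hab
    obtain ⟨B, hB⟩ := one a ha
    exact ⟨B, hB, hB⟩
  by_cases hN : Nr a b
  · rcases hN with ⟨c, d, v, h1, h2⟩ | ⟨c, d, v, h1, h2⟩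
    · exact nr_case a b c d v ha h1 h2
    · obtain ⟨B, h3, h4⟩ := nr_case b a c d v hb h1 h2
      exact ⟨B, h4, h3⟩
  · rcases lt_total a b hab with h | h
    · exact ⟨⟨(a, b), ha, hb, h, hN⟩, Or.inl rfl, Or.inr (Or.inl rfl)⟩
    · exact ⟨⟨(b, a), hb, ha, h, fun h1 => hN (Nr_symm h1)⟩, Or.inr (Or.inl rfl), Or.inl rfl⟩

end

theorem pf_LNE : T_LNE := by
  intro ι ar D x T p q
  obtain ⟨p, hp⟩ := p
  obtain ⟨q, hq⟩ := q
  cases p with
  | inr k =>
    cases q with
    | inr l =>
      obtain ⟨B, _⟩ := one (T := T) .g trivial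
      exact ⟨B, fun r h => (by cases h), fun r h => (by cases h)⟩
    | inl b =>
      obtain ⟨B, hB⟩ := one (T := T) b hq
      refine ⟨B, fun r h => (by cases h), fun r h => ?_⟩
      have h1 : b = r := Sum.inl.inj h
      rw [← h1]
      exact hB
  | inl a =>
    cases q with
    | inr l =>
      obtain ⟨B, hB⟩ := one (T := T) a hp
      refine ⟨B, fun r h => ?_, fun r h => (by cases h)⟩
      have h1 : a = r := Sum.inl.inj h
      rw [← h1]
      exact hB
    | inl b =>
      obtain ⟨B, hB1, hB2⟩ := two (T := T) a b hp hq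
      refine ⟨B, fun r h => ?_, fun r h => ?_⟩
      · have h1 : a = r := Sum.inl.inj h
        rw [← h1]
        exact hB1
      · have h1 : b = r := Sum.inl.inj h
        rw [← h1]
        exact hB2

end Pool.Agent.H68.TU
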